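import Pool.Agent.X136.MB.Step

set_option autoImplicit false

/-!
# Maker wins on the full lattice
-/

namespace Pool.Agent.X136.MB

/-- the other edge of the pair -/
def partner (e : Edge) : Edge := (e.1, e.2.1, !e.2.2)

theorem partner_partner (e : Edge) : partner (partner e) = e := by
  obtain ⟨x, y, b⟩ := e
  simp [partner]

theorem partner_ne (e : Edge) : partner e ≠ e := by
  obtain ⟨x, y, b⟩ := e
  cases b <;> simp [partner]

theorem exists_fresh (A : List Edge) : ∃ e : Edge, e ∉ A := by
  classical
  obtain ⟨e, he⟩ := Infinite.exists_notMem_finset A.toFinset
  exact ⟨e, fun h => he (List.mem_toFinset.2 h)⟩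

open Classical in
/-- the reply -/
noncomputable def reply (f : Edge) (A : List Edge) : Edge :=
  if partner f ∈ A then (exists_fresh A).choose else partner f

theorem reply_notMem (f : Edge) (A : List Edge) : reply f A ∉ A := by
  unfold reply
  split_ifs with h
  · exact (exists_fresh A).choose_spec
  · exact h

theorem partner_mem (f : Edge) (A : List Edge) : partner f ∈ A ∨ partner f = reply f A := by
  unfold reply
  split_ifs with h
  · exact Or.inl h
  · exact Or.inr rfl

/-- the moves of Maker, the last first, against the list of moves of Breaker, the last first -/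
noncomputable def play : List Edge → List Edge
  | [] => [(0, 0, false)]
  | f :: R => reply f (f :: R ++ play R) :: play R

/-- the strategy -/
noncomputable def str (L : List Edge) : Edge := (play L.reverse).headD (0, 0, false)

theorem str_nil : str [] = (0, 0, false) := rfl

theorem str_append (L : List Edge) (f : Edge) :
    str (L ++ [f]) = reply f (f :: L.reverse ++ play L.reverse) := by
  unfold str
  rw [List.reverse_append]
  rfl

theorem play_append (L : List Edge) (f : Edge) :
    play (L ++ [f]).reverse = str (L ++ [f]) :: play L.reverse := by
  rw [str_append, List.reverse_append]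
  rfl

theorem mem_play (L : List Edge) : ∀ e, e ∈ play L.reverse ↔ e ∈ makerEdges str L := by
  induction L using List.reverseRecOn with
  | nil =>
    intro e
    constructor
    · intro h
      refine ⟨[], List.prefix_refl _, ?_⟩
      rw [str_nil]
      simpa [play] using h
    · rintro ⟨L', h, rfl⟩
      rw [List.prefix_nil] at h
      rw [h, str_nil]
      simp [play]
  | append_singleton L f ih =>
    intro e
    rw [play_append, List.mem_cons, ih, makerEdges_eq str (L ++ [f]), before_append]
    constructor
    · rintro (h | h)
      · exact Or.inr h
      · exact Or.inl h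
    · rintro (h | h)
      · exact Or.inr h
      · exact Or.inl h

theorem legal_prefix {G : Set Edge} {σ : Strategy} {L L' : List Edge} (h : Legal G σ L)
    (hp : L' <+: L) : Legal G σ L' := fun L'' f h' => h L'' f (h'.trans hp)

theorem partner_claimed (L : List Edge) : ∀ e ∈ L, partner e ∈ L ∨ partner e ∈ makerEdges str L := by
  induction L using List.reverseRecOn with
  | nil => intro e he; simp at he
  | append_singleton L f ih =>
    intro e he
    rw [makerEdges_eq, before_append]
    rw [List.mem_append, List.mem_singleton] at he
    rcases he with he | rfl
    · rcases ih e he with h | h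
      · left; exact List.mem_append_left _ h
      · right; exact Or.inl h
    · rcases partner_mem e (e :: L.reverse ++ play L.reverse) with h | h
      · rw [List.mem_append, List.mem_cons, List.mem_reverse, mem_play] at h
        rcases h with (h | h) | h
        · exact absurd h (partner_ne e)
        · left; exact List.mem_append_left _ h
        · right; exact Or.inl h
      · right; right
        rw [str_append]
        exact h

theorem no_pair {G : Set Edge} (L : List Edge) (hL : Legal G str L) :
    ∀ e ∈ L, partner e ∉ L := by
  induction L using List.reverseRecOn with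
  | nil => intro e he; simp at he
  | append_singleton L f ih =>
    have h0 := legal_prefix hL (List.prefix_append L [f])
    obtain ⟨-, hf1, hf2⟩ := hL L f (List.prefix_refl _)
    intro e he hpe
    rw [List.mem_append, List.mem_singleton] at he hpe
    rcases he with he | rfl
    · rcases hpe with hpe | hpe
      · exact ih h0 e he hpe
      · rcases partner_claimed L e he with h | h
        · rw [hpe] at h; exact hf1 h
        · rw [hpe] at h; exact hf2 h
    · rcases hpe with hpe | hpe
      · rcases partner_claimed L _ hpe with h | h
        · rw [partner_partner] at h; exact hf1 h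
        · rw [partner_partner] at h; exact hf2 h
      · exact partner_ne e hpe

theorem comp_inf {H : Set Edge} (h : ∀ x y : ℤ, (x, y, false) ∈ H ∨ (x, y, true) ∈ H) (v : Vertex) :
    (comp H v).Infinite := by
  have key : ∀ k : ℕ, ∃ w ∈ comp H v, w.1 + w.2 = v.1 + v.2 + k := by
    intro k
    induction k with
    | zero => exact ⟨v, Relation.ReflTransGen.refl, by simp⟩
    | succ k ih =>
      obtain ⟨w, hw, hs⟩ := ih
      rcases h w.1 w.2 with h1 | h1
      · refine ⟨(w.1 + 1, w.2), Relation.ReflTransGen.tail hw ⟨_, h1, Or.inl ⟨rfl, rfl⟩⟩, ?_⟩
        push_cast
        linarith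
      · refine ⟨(w.1, w.2 + 1), Relation.ReflTransGen.tail hw ⟨_, h1, Or.inl ⟨rfl, rfl⟩⟩, ?_⟩
        push_cast
        linarith
  choose g hg hs using key
  refine Set.infinite_of_injective_forall_mem (f := g) ?_ hg
  intro i j hij
  have h1 := hs i
  have h2 := hs j
  rw [hij] at h1
  have : (i : ℤ) = j := by linarith
  exact_mod_cast this

theorem wins_full : Wins Set.univ (0, 0) str := by
  intro L hL
  refine ⟨⟨Set.mem_univ _, ?_, ?_⟩, ?_⟩
  · rcases List.eq_nil_or_concat' L with rfl | ⟨L0, f, rfl⟩
    · simp
    · rw [str_append]
      intro h
      refine reply_notMem f (f :: L0.reverse ++ play L0.reverse) ?_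
      rw [List.mem_append, List.mem_cons, List.mem_reverse]
      left
      rw [List.mem_append, List.mem_singleton] at h
      exact h.symm
  · intro L' hp hne heq
    rcases List.eq_nil_or_concat' L with rfl | ⟨L0, f, rfl⟩
    · rw [List.prefix_nil] at hp
      exact hne hp
    · have h1 : L' <+: L0 := by
        rw [List.prefix_concat_iff] at hp
        exact hp.resolve_left hne
      refine reply_notMem f (f :: L0.reverse ++ play L0.reverse) ?_
      rw [← str_append, List.mem_append]
      right
      rw [mem_play]
      exact ⟨L', h1, heq⟩
  · refine comp_inf (fun x y => ?_) _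
    by_contra hcon
    rw [not_or] at hcon
    have h1 : (x, y, false) ∈ L := by
      by_contra h
      exact hcon.1 ⟨Set.mem_univ _, h⟩
    have h2 : (x, y, true) ∈ L := by
      by_contra h
      exact hcon.2 ⟨Set.mem_univ _, h⟩
    exact no_pair L hL _ h1 h2

end Pool.Agent.X136.MB
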