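import Pool.Agent.X136.MB.Step
import Pool.Agent.X136.HT.Prob

set_option autoImplicit false

/-!
# Sparse boxes
-/

namespace Pool.Agent.X136.MB

open MeasureTheory ProbabilityTheory

/-- the box -/
noncomputable def Bx (v : Vertex) (n : ℕ) : Finset Vertex :=
  Finset.Icc (v.1 - n) (v.1 + n) ×ˢ Finset.Icc (v.2 - n) (v.2 + n)

theorem mem_Bx {v : Vertex} {n : ℕ} {p : Vertex} : p ∈ Bx v n ↔
    v.1 - n ≤ p.1 ∧ p.1 ≤ v.1 + n ∧ v.2 - n ≤ p.2 ∧ p.2 ≤ v.2 + n := by
  unfold Bx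
  rw [Finset.mem_product, Finset.mem_Icc, Finset.mem_Icc]
  tauto

/-- the injection -/
def inj (v : Vertex) (x0 : ℤ → ℤ) (xL xR : ℤ) (p : ℤ × ℤ) : ℤ × ℤ :=
  (if p.2 = v.2 then (if p.1 < xL then p.1 + 1 else if p.1 < v.1 then p.1 else
    if p.1 < xR then p.1 + 1 else p.1) else (if p.1 < x0 p.2 then p.1 + 1 else p.1), p.2)

theorem count_le {v : Vertex} {n : ℕ} {W : Finset Vertex} (hv : v ∈ W)
    {H : Finset (ℤ × ℤ)} (hH : ∀ p ∈ H, v.1 - n - 1 ≤ p.1 ∧ p.1 ≤ v.1 + n ∧ v.2 - n ≤ p.2 ∧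
      p.2 ≤ v.2 + n ∧ (p ∈ W ∨ p ∉ Bx v n) ∧ ((p.1 + 1, p.2) ∈ W ∨ (p.1 + 1, p.2) ∉ Bx v n))
    (h0 : ∀ y, v.2 - n ≤ y → y ≤ v.2 + n → ∃ x, v.1 ≤ x ∧ x ≤ v.1 + n ∧ (x, y) ∉ H)
    (hL : ∃ x, v.1 - n - 1 ≤ x ∧ x ≤ v.1 - 1 ∧ (x, v.2) ∉ H) : H.card + 1 ≤ W.card := by
  classical
  have h0' : ∀ y, ∃ x, v.2 - n ≤ y → y ≤ v.2 + n → v.1 ≤ x ∧ x ≤ v.1 + n ∧ (x, y) ∉ H := by
    intro y
    by_cases h1 : v.2 - n ≤ y ∧ y ≤ v.2 + n
    · obtain ⟨x, h2⟩ := h0 y h1.1 h1.2
      exact ⟨x, fun _ _ => h2⟩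
    · exact ⟨0, fun h2 h3 => absurd ⟨h2, h3⟩ h1⟩
  choose x0 hx0 using h0'
  obtain ⟨xL, hL1, hL2, hL3⟩ := hL
  obtain ⟨hR1, hR2, hR3⟩ := hx0 v.2 (by omega) (by omega)
  have key : ∀ p ∈ H, inj v x0 xL (x0 v.2) p ∈ W.erase v := by
    intro p hp
    obtain ⟨h1, h2, h3, h4, h5, h6⟩ := hH p hp
    obtain ⟨h7, h8, h9⟩ := hx0 p.2 h3 h4
    rw [mem_Bx] at h5 h6
    unfold inj
    have hne : ∀ x, (x, p.2) ∉ H → p.1 ≠ x := by
      intro x hx he
      apply hx
      rw [← he]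
      exact hp
    have a1 := hne _ h9
    rw [Finset.mem_erase]
    by_cases hy : p.2 = v.2
    · rw [if_pos hy]
      rw [← hy] at hL3 hR3
      have a2 := hne _ hL3
      have a3 := hne _ hR3
      rw [hy] at a1
      split_ifs with c1 c2 c3
      · refine ⟨fun h => ?_, ?_⟩
        · have := congrArg Prod.fst h
          simp only at this
          omega
        · rcases h6 with h6 | h6
          · exact h6
          · exfalso; apply h6
            refine ⟨?_, ?_, h3, h4⟩ <;> simp only <;> omega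
      · refine ⟨fun h => ?_, ?_⟩
        · have := congrArg Prod.fst h
          simp only at this
          omega
        · rcases h5 with h5 | h5
          · exact h5
          · exfalso; apply h5
            refine ⟨?_, ?_, h3, h4⟩ <;> omega
      · refine ⟨fun h => ?_, ?_⟩
        · have := congrArg Prod.fst h
          simp only at this
          omega
        · rcases h6 with h6 | h6
          · exact h6
          · exfalso; apply h6
            refine ⟨?_, ?_, h3, h4⟩ <;> simp only <;> omega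
      · refine ⟨fun h => ?_, ?_⟩
        · have := congrArg Prod.fst h
          simp only at this
          omega
        · rcases h5 with h5 | h5
          · exact h5
          · exfalso; apply h5
            refine ⟨?_, ?_, h3, h4⟩ <;> omega
    · rw [if_neg hy]
      split_ifs with c1
      · refine ⟨fun h => hy (by have := congrArg Prod.snd h; exact this), ?_⟩
        rcases h6 with h6 | h6
        · exact h6
        · exfalso; apply h6
          refine ⟨?_, ?_, h3, h4⟩ <;> simp only <;> omega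
      · refine ⟨fun h => hy (by have := congrArg Prod.snd h; exact this), ?_⟩
        rcases h5 with h5 | h5
        · exact h5
        · exfalso; apply h5
          refine ⟨?_, ?_, h3, h4⟩ <;> omega
  have hinj : Set.InjOn (inj v x0 xL (x0 v.2)) H := by
    intro p hp q hq h
    have hp' : p ∈ H := hp
    have hq' : q ∈ H := hq
    obtain ⟨p1, p2, p3, p4, -, -⟩ := hH p hp'
    have e2 : p.2 = q.2 := by have := congrArg Prod.snd h; exact this
    have e1 := congrArg Prod.fst h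
    unfold inj at e1
    simp only at e1
    have hne : ∀ x, (x, p.2) ∉ H → p.1 ≠ x := by
      intro x hx he
      apply hx
      rw [← he]
      exact hp'
    have hne' : ∀ x, (x, q.2) ∉ H → q.1 ≠ x := by
      intro x hx he
      apply hx
      rw [← he]
      exact hq'
    obtain ⟨h7, h8, h9⟩ := hx0 p.2 p3 p4
    have a1 := hne _ h9
    have h9' := h9
    rw [e2] at h9'
    have a1' := hne' _ h9'
    rw [← e2] at e1 a1'
    refine Prod.ext ?_ e2
    by_cases hy : p.2 = v.2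
    · rw [if_pos hy, if_pos hy] at e1
      rw [← hy] at hL3 hR3
      have a2 := hne _ hL3
      have a3 := hne _ hR3
      rw [e2] at hL3 hR3
      have a2' := hne' _ hL3
      have a3' := hne' _ hR3
      rw [hy] at a1 a1'
      rw [← e2, hy] at a3'
      split_ifs at e1 <;> omega
    · rw [if_neg hy, if_neg hy] at e1
      split_ifs at e1 <;> omega
  have h1 := Finset.card_le_card_of_injOn _ key hinj
  rw [Finset.card_erase_of_mem hv] at h1
  have h2 : 0 < W.card := Finset.card_pos.2 ⟨v, hv⟩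
  omega

/-- swap -/
def sw (p : Vertex) : Vertex := (p.2, p.1)

theorem sw_inj : Function.Injective sw := by
  intro p q h
  have h1 := congrArg Prod.fst h
  have h2 := congrArg Prod.snd h
  exact Prod.ext h2 h1

/-- the closed edges which make the box of radius `n` sparse -/
def Good (G : Set Edge) (v : Vertex) (n : ℕ) : Prop :=
  ((∀ y, v.2 - n ≤ y → y ≤ v.2 + n → ∃ x, v.1 ≤ x ∧ x ≤ v.1 + n ∧ (x, y, false) ∉ G) ∧
    ∃ x, v.1 - n - 1 ≤ x ∧ x ≤ v.1 - 1 ∧ (x, v.2, false) ∉ G) ∧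
  ((∀ x, v.1 - n ≤ x → x ≤ v.1 + n → ∃ y, v.2 ≤ y ∧ y ≤ v.2 + n ∧ (x, y, true) ∉ G) ∧
    ∃ y, v.2 - n - 1 ≤ y ∧ y ≤ v.2 - 1 ∧ (v.1, y, true) ∉ G)

theorem sparse {G : Set Edge} {v : Vertex} {n : ℕ} (h : Good G v n) :
    ∀ W ⊆ Bx v n, v ∈ W →
      SS (GR G (Bx v n)) (ins (Bx v n)) (fun _ => 1) W ≤ 2 * W.card - 2 := by
  classical
  intro W hW hv
  set E := (GR G (Bx v n)).filter fun e => ins (Bx v n) W e with hE
  have h1 : SS (GR G (Bx v n)) (ins (Bx v n)) (fun _ => 1) W = E.card := by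
    unfold SS
    rw [hE, Finset.card_filter]
    push_cast
    refine Finset.sum_congr rfl fun e _ => ?_
    congr
  set H1 := (E.filter fun e => e.2.2 = false).image fun e => (e.1, e.2.1) with hH1
  set H2 := (E.filter fun e => ¬ e.2.2 = false).image fun e => (e.2.1, e.1) with hH2
  have c1 : H1.card = (E.filter fun e => e.2.2 = false).card := by
    refine Finset.card_image_of_injOn ?_
    rintro ⟨x, y, b⟩ hb ⟨x', y', b'⟩ hb' he
    have hb1 := (Finset.mem_filter.1 hb).2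
    have hb2 := (Finset.mem_filter.1 hb').2
    simp only [Prod.mk.injEq] at he hb1 hb2 ⊢
    exact ⟨he.1, he.2, hb1.trans hb2.symm⟩
  have c2 : H2.card = (E.filter fun e => ¬ e.2.2 = false).card := by
    refine Finset.card_image_of_injOn ?_
    rintro ⟨x, y, b⟩ hb ⟨x', y', b'⟩ hb' he
    have hb1 := (Finset.mem_filter.1 hb).2
    have hb2 := (Finset.mem_filter.1 hb').2
    simp only [Prod.mk.injEq, Bool.not_eq_false] at he hb1 hb2 ⊢
    exact ⟨he.2, he.1, hb1.trans hb2.symm⟩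
  have c3 := Finset.card_filter_add_card_filter_not (s := E) (fun e => e.2.2 = false)
  have hmE : ∀ e, e ∈ E ↔ (e ∈ G ∧ (src e ∈ Bx v n ∨ tgt e ∈ Bx v n)) ∧ ins (Bx v n) W e := by
    intro e
    rw [hE, Finset.mem_filter, mem_GR]
  have m1 : ∀ p : ℤ × ℤ, p ∈ H1 ↔ (p.1, p.2, false) ∈ E := by
    intro p
    rw [hH1, Finset.mem_image]
    constructor
    · rintro ⟨⟨x, y, b⟩, hb, rfl⟩
      have hb' := Finset.mem_filter.1 hb
      have hb2 : b = false := hb'.2
      rw [hb2] at hb'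
      exact hb'.1
    · intro hp
      exact ⟨(p.1, p.2, false), Finset.mem_filter.2 ⟨hp, rfl⟩, rfl⟩
  have m2 : ∀ p : ℤ × ℤ, p ∈ H2 ↔ (p.2, p.1, true) ∈ E := by
    intro p
    rw [hH2, Finset.mem_image]
    constructor
    · rintro ⟨⟨x, y, b⟩, hb, rfl⟩
      have hb' := Finset.mem_filter.1 hb
      have hb2 : b = true := by simpa using hb'.2
      rw [hb2] at hb'
      exact hb'.1
    · intro hp
      exact ⟨(p.2, p.1, true), Finset.mem_filter.2 ⟨hp, by simp⟩, rfl⟩
  have k1 : H1.card + 1 ≤ W.card := by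
    refine count_le hv (n := n) ?_ ?_ ?_
    · intro p hp
      rw [m1, hmE] at hp
      obtain ⟨⟨-, h3⟩, h4, h5⟩ := hp
      simp only [src, tgt, Bool.false_eq_true, if_false] at h3 h4 h5
      have hb : v.1 - n - 1 ≤ p.1 ∧ p.1 ≤ v.1 + n ∧ v.2 - n ≤ p.2 ∧ p.2 ≤ v.2 + n := by
        rw [mem_Bx, mem_Bx] at h3
        simp only at h3
        omega
      exact ⟨hb.1, hb.2.1, hb.2.2.1, hb.2.2.2, h4, h5⟩
    · intro y hy1 hy2
      obtain ⟨x, hx1, hx2, hx3⟩ := h.1.1 y hy1 hy2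
      refine ⟨x, hx1, hx2, fun hc => hx3 ?_⟩
      rw [m1, hmE] at hc
      exact hc.1.1
    · obtain ⟨x, hx1, hx2, hx3⟩ := h.1.2
      refine ⟨x, hx1, hx2, fun hc => hx3 ?_⟩
      rw [m1, hmE] at hc
      exact hc.1.1
  have k2 : H2.card + 1 ≤ W.card := by
    have hcard : (W.image sw).card = W.card := Finset.card_image_of_injective _ sw_inj
    rw [← hcard]
    have hmem : ∀ p : Vertex, p ∈ W.image sw ↔ (p.2, p.1) ∈ W := by
      intro p
      rw [Finset.mem_image]
      constructor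
      · rintro ⟨q, hq, rfl⟩; exact hq
      · intro hp; exact ⟨(p.2, p.1), hp, rfl⟩
    have hBx : ∀ p : Vertex, p ∈ Bx (sw v) n ↔ (p.2, p.1) ∈ Bx v n := by
      intro p
      rw [mem_Bx, mem_Bx]
      simp only [sw]
      tauto
    refine count_le (v := sw v) (n := n) ?_ ?_ ?_ ?_
    · rw [hmem]; exact hv
    · intro p hp
      rw [m2, hmE] at hp
      obtain ⟨⟨-, h3⟩, h4, h5⟩ := hp
      rw [hmem, hmem, hBx, hBx]
      simp only [src, tgt, if_true] at h3 h4 h5
      have hb : v.2 - n - 1 ≤ p.1 ∧ p.1 ≤ v.2 + n ∧ v.1 - n ≤ p.2 ∧ p.2 ≤ v.1 + n := by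
        rw [mem_Bx, mem_Bx] at h3
        simp only at h3
        omega
      exact ⟨hb.1, hb.2.1, hb.2.2.1, hb.2.2.2, h4, h5⟩
    · intro y hy1 hy2
      obtain ⟨x, hx1, hx2, hx3⟩ := h.2.1 y hy1 hy2
      refine ⟨x, hx1, hx2, fun hc => hx3 ?_⟩
      rw [m2, hmE] at hc
      exact hc.1.1
    · obtain ⟨x, hx1, hx2, hx3⟩ := h.2.2
      refine ⟨x, hx1, hx2, fun hc => hx3 ?_⟩
      rw [m2, hmE] at hc
      exact hc.1.1
  rw [h1]
  omega

theorem not_wins {G : Set Edge} {v : Vertex} {n : ℕ} (h : Good G v n) (σ : Strategy) :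
    ¬ Wins G v σ :=
  breaker_wins (by rw [mem_Bx]; omega) (sparse h) σ

end Pool.Agent.X136.MB
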