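import Mathlib

set_option autoImplicit false

/-!
# The Maker-Breaker percolation game on subgraphs of the square lattice: definitions
-/

namespace Pool.Agent.X136.MB

open MeasureTheory ProbabilityTheory

/-- Vertices of the square lattice. -/
abbrev Vertex : Type := ℤ × ℤ

/-- Edges of the square lattice: `(x, y, false)` joins `(x, y)` to `(x + 1, y)` and `(x, y, true)`
joins `(x, y)` to `(x, y + 1)`. -/
abbrev Edge : Type := ℤ × ℤ × Bool

/-- First endpoint. -/
def src (e : Edge) : Vertex := (e.1, e.2.1)

/-- Second endpoint. -/
def tgt (e : Edge) : Vertex := if e.2.2 then (e.1, e.2.1 + 1) else (e.1 + 1, e.2.1)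

/-- `u` and `w` are joined by an edge of `H`. -/
def Adj (H : Set Edge) (u w : Vertex) : Prop :=
  ∃ e ∈ H, (src e = u ∧ tgt e = w) ∨ (src e = w ∧ tgt e = u)

/-- The vertex set of the component of `v` in the graph with edge set `H`. -/
def comp (H : Set Edge) (v : Vertex) : Set Vertex := {w | Relation.ReflTransGen (Adj H) v w}

/-- A strategy of Maker: her next move as a function of the list of the previous moves of Breaker
(in chronological order); this determines all her own moves. -/
abbrev Strategy : Type := List Edge → Edge

/-- The edges claimed by Maker after her answer to the list `L` of moves of Breaker. -/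
def makerEdges (σ : Strategy) (L : List Edge) : Set Edge := {e | ∃ L', L' <+: L ∧ e = σ L'}

/-- The list `L` is a legal sequence of moves of Breaker against `σ` on the board `G`: every move is
an edge of the board which was not claimed before by Breaker or by Maker (who moves first). -/
def Legal (G : Set Edge) (σ : Strategy) (L : List Edge) : Prop :=
  ∀ (L' : List Edge) (f : Edge), (L' ++ [f]) <+: L → f ∈ G ∧ f ∉ L' ∧ f ∉ makerEdges σ L'

/-- `σ` is a winning strategy of Maker in the `(1,1)`-percolation game on the board `G` with root
`v`: against every legal sequence of moves of Breaker, her next move is an unclaimed edge of the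
board and the component of the root in the board without the edges of Breaker is infinite. -/
def Wins (G : Set Edge) (v : Vertex) (σ : Strategy) : Prop :=
  ∀ L : List Edge, Legal G σ L →
    (σ L ∈ G ∧ σ L ∉ L ∧ ∀ L', L' <+: L → L' ≠ L → σ L ≠ σ L') ∧
    (comp (G \ {e | e ∈ L}) v).Infinite

/-- Maker wins on the board `G`: for some choice of the root she has a winning strategy. -/
def MakerWins (G : Set Edge) : Prop := ∃ (v : Vertex) (σ : Strategy), Wins G v σ

/-- Bernoulli bond percolation with parameter `θ`. -/
noncomputable def perc (θ : unitInterval) : Measure (Edge → Bool) :=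
  Measure.infinitePi fun _ : Edge => bernoulliMeasure true false θ

/-- The thinning threshold `θ_⋆`. -/
noncomputable def thetaStar : ℝ :=
  sInf {θ : ℝ | 1 / 2 < θ ∧ ∃ h : θ ∈ Set.Icc (0 : ℝ) 1,
    ∀ᵐ c ∂perc ⟨θ, h⟩, MakerWins {e | c e = true}}

end Pool.Agent.X136.MB
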