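import Pool.Agent.X136.MB.Count

set_option autoImplicit false

/-!
# Almost surely some box around the root is sparse
-/

namespace Pool.Agent.X136.MB

open MeasureTheory ProbabilityTheory Filter Topology

instance (θ : unitInterval) : IsProbabilityMeasure (perc θ) := by
  unfold perc; infer_instance

theorem line_le {θ : unitInterval} {n : ℕ} (g : ℕ → Edge) (hg : Function.Injective g) :
    (perc θ) {c | ∀ i < n + 1, c (g i) = true} = ENNReal.ofReal θ ^ (n + 1) := by
  classical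
  have h := HT.bern_full (V := Edge) θ ((Finset.range (n + 1)).image g)
  rw [Finset.card_image_of_injective _ hg, Finset.card_range] at h
  rw [← h]
  unfold perc HT.bern
  congr 1
  ext c
  simp

theorem bad_le {θ : unitInterval} (v : Vertex) (n : ℕ) :
    (perc θ) {c | ¬ Good {e | c e = true} v n} ≤
      (4 * n + 4 : ℕ) * ENNReal.ofReal θ ^ (n + 1) := by
  classical
  set A1 : ℤ → Set (Edge → Bool) := fun y => {c | ∀ i : ℕ, i < n + 1 → c (v.1 + i, y, false) = true}
  set A2 : Set (Edge → Bool) := {c | ∀ i : ℕ, i < n + 1 → c (v.1 - 1 - i, v.2, false) = true}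
  set A3 : ℤ → Set (Edge → Bool) := fun x => {c | ∀ i : ℕ, i < n + 1 → c (x, v.2 + i, true) = true}
  set A4 : Set (Edge → Bool) := {c | ∀ i : ℕ, i < n + 1 → c (v.1, v.2 - 1 - i, true) = true}
  have hsub : {c : Edge → Bool | ¬ Good {e | c e = true} v n} ⊆
      ((⋃ y ∈ Finset.Icc (v.2 - n) (v.2 + n), A1 y) ∪ A2) ∪
      ((⋃ x ∈ Finset.Icc (v.1 - n) (v.1 + n), A3 x) ∪ A4) := by
    intro c hc
    by_contra hcon
    apply hc
    simp only [Set.mem_union, Set.mem_iUnion, not_or, not_exists] at hcon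
    obtain ⟨⟨h1, h2⟩, h3, h4⟩ := hcon
    refine ⟨⟨fun y hy1 hy2 => ?_, ?_⟩, ⟨fun x hx1 hx2 => ?_, ?_⟩⟩
    · have := h1 y (Finset.mem_Icc.2 ⟨hy1, hy2⟩)
      simp only [A1, Set.mem_ofPred_eq] at this
      push Not at this
      obtain ⟨i, hi, hi2⟩ := this
      exact ⟨v.1 + i, by omega, by omega, hi2⟩
    · simp only [A2, Set.mem_ofPred_eq] at h2
      push Not at h2
      obtain ⟨i, hi, hi2⟩ := h2
      exact ⟨v.1 - 1 - i, by omega, by omega, hi2⟩
    · have := h3 x (Finset.mem_Icc.2 ⟨hx1, hx2⟩)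
      simp only [A3, Set.mem_ofPred_eq] at this
      push Not at this
      obtain ⟨i, hi, hi2⟩ := this
      exact ⟨v.2 + i, by omega, by omega, hi2⟩
    · simp only [A4, Set.mem_ofPred_eq] at h4
      push Not at h4
      obtain ⟨i, hi, hi2⟩ := h4
      exact ⟨v.2 - 1 - i, by omega, by omega, hi2⟩
  have e1 : ∀ y, (perc θ) (A1 y) = ENNReal.ofReal θ ^ (n + 1) := fun y =>
    line_le (fun i : ℕ => ((v.1 + i, y, false) : Edge)) (by
      intro i j h
      have := congrArg Prod.fst h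
      simpa using this)
  have e2 : (perc θ) A2 = ENNReal.ofReal θ ^ (n + 1) :=
    line_le (fun i : ℕ => ((v.1 - 1 - i, v.2, false) : Edge)) (by
      intro i j h
      have := congrArg Prod.fst h
      simpa using this)
  have e3 : ∀ x, (perc θ) (A3 x) = ENNReal.ofReal θ ^ (n + 1) := fun x =>
    line_le (fun i : ℕ => ((x, v.2 + i, true) : Edge)) (by
      intro i j h
      have := congrArg (fun e : Edge => e.2.1) h
      simpa using this)
  have e4 : (perc θ) A4 = ENNReal.ofReal θ ^ (n + 1) :=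
    line_le (fun i : ℕ => ((v.1, v.2 - 1 - i, true) : Edge)) (by
      intro i j h
      have := congrArg (fun e : Edge => e.2.1) h
      simpa using this)
  have b1 : (perc θ) (⋃ y ∈ Finset.Icc (v.2 - n) (v.2 + n), A1 y) ≤
      (2 * n + 1 : ℕ) * ENNReal.ofReal θ ^ (n + 1) := by
    refine (measure_biUnion_finset_le _ _).trans (le_of_eq ?_)
    rw [Finset.sum_congr rfl fun y _ => e1 y, Finset.sum_const, Int.card_Icc, nsmul_eq_mul]
    congr 2
    omega
  have b3 : (perc θ) (⋃ x ∈ Finset.Icc (v.1 - n) (v.1 + n), A3 x) ≤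
      (2 * n + 1 : ℕ) * ENNReal.ofReal θ ^ (n + 1) := by
    refine (measure_biUnion_finset_le _ _).trans (le_of_eq ?_)
    rw [Finset.sum_congr rfl fun y _ => e3 y, Finset.sum_const, Int.card_Icc, nsmul_eq_mul]
    congr 2
    omega
  refine (measure_mono hsub).trans ((measure_union_le _ _).trans ?_)
  refine (add_le_add ((measure_union_le _ _).trans (add_le_add b1 e2.le))
    ((measure_union_le _ _).trans (add_le_add b3 e4.le))).trans (le_of_eq ?_)
  push_cast
  ring

theorem pow_tendsto {θ : ℝ} (h0 : 0 ≤ θ) (h1 : θ < 1) :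
    Tendsto (fun n : ℕ => ((4 * n + 4 : ℕ) : ENNReal) * ENNReal.ofReal θ ^ (n + 1)) atTop (𝓝 0) := by
  have a1 := tendsto_self_mul_const_pow_of_lt_one h0 h1
  have a2 := (tendsto_add_atTop_iff_nat 1).2 a1
  have a3 : Tendsto (fun n : ℕ => 4 * (((n + 1 : ℕ) : ℝ) * θ ^ (n + 1))) atTop (𝓝 (4 * 0)) :=
    a2.const_mul 4
  rw [mul_zero] at a3
  have a4 := ENNReal.tendsto_ofReal a3
  rw [ENNReal.ofReal_zero] at a4
  refine a4.congr fun n => ?_
  rw [← ENNReal.ofReal_pow h0, ← ENNReal.ofReal_natCast, ← ENNReal.ofReal_mul (by positivity)]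
  congr 1
  push_cast
  ring

theorem ae_not_wins {θ : unitInterval} (h : (θ : ℝ) < 1) :
    ∀ᵐ c ∂perc θ, ¬ MakerWins {e | c e = true} := by
  have h1 : ∀ v : Vertex, ∀ᵐ c ∂perc θ, ∃ n, Good {e | c e = true} v n := by
    intro v
    rw [ae_iff]
    have h2 : ∀ n, (perc θ) {c | ¬ ∃ n, Good {e | c e = true} v n} ≤
        (4 * n + 4 : ℕ) * ENNReal.ofReal θ ^ (n + 1) := by
      intro n
      refine (measure_mono ?_).trans (bad_le v n)
      intro c hc
      simp only [Set.mem_ofPred_eq] at hc ⊢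
      exact fun hg => hc ⟨n, hg⟩
    have h3 := ge_of_tendsto' (pow_tendsto θ.2.1 h) h2
    exact le_antisymm h3 zero_le
  have h2 : ∀ᵐ c ∂perc θ, ∀ v : Vertex, ∃ n, Good {e | c e = true} v n := ae_all_iff.2 h1
  filter_upwards [h2] with c hc
  rintro ⟨v, σ, hσ⟩
  obtain ⟨n, hn⟩ := hc v
  exact not_wins hn σ hσ

end Pool.Agent.X136.MB
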