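import Pool.Agent.X136.MB.Defs

set_option autoImplicit false

/-!
# The strategy of Breaker in a sparse box
-/

namespace Pool.Agent.X136.MB

open Classical in
/-- weight of the edges inside `W` -/
noncomputable def SS {α β : Type*} (E : Finset β) (ins : Finset α → β → Prop) (w : β → ℤ)
    (W : Finset α) : ℤ := ∑ e ∈ E, if ins W e then w e else 0

section abstract

variable {α β : Type*} [DecidableEq α] {E : Finset β} {ins : Finset α → β → Prop}

theorem SS_super (hcap : ∀ W1 W2 e, ins W1 e → ins W2 e → ins (W1 ∩ W2) e)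
    (hmono : ∀ W1 W2 e, W1 ⊆ W2 → ins W1 e → ins W2 e) {w : β → ℤ} (hw : ∀ e ∈ E, 0 ≤ w e)
    (W1 W2 : Finset α) : SS E ins w W1 + SS E ins w W2 ≤
      SS E ins w (W1 ∪ W2) + SS E ins w (W1 ∩ W2) := by
  classical
  unfold SS
  rw [← Finset.sum_add_distrib, ← Finset.sum_add_distrib]
  refine Finset.sum_le_sum fun e he => ?_
  have h0 := hw e he
  by_cases h1 : ins W1 e
  · have hu : ins (W1 ∪ W2) e := hmono _ _ _ Finset.subset_union_left h1
    by_cases h2 : ins W2 e
    · rw [if_pos h1, if_pos h2, if_pos hu, if_pos (hcap _ _ _ h1 h2)]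
    · rw [if_pos h1, if_neg h2, if_pos hu]
      split_ifs <;> linarith
  · by_cases h2 : ins W2 e
    · have hu : ins (W1 ∪ W2) e := hmono _ _ _ Finset.subset_union_right h2
      rw [if_neg h1, if_pos h2, if_pos hu]
      split_ifs <;> linarith
    · rw [if_neg h1, if_neg h2]
      split_ifs <;> linarith

/-- the answer of Breaker -/
theorem step_lemma (hcap : ∀ W1 W2 e, ins W1 e → ins W2 e → ins (W1 ∩ W2) e)
    (hmono : ∀ W1 W2 e, W1 ⊆ W2 → ins W1 e → ins W2 e) {w : β → ℤ}
    (hw : ∀ e ∈ E, w e = 0 ∨ w e = 1 ∨ w e = 2) {Bx : Finset α} {v : α}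
    (hinv : ∀ W ⊆ Bx, v ∈ W → SS E ins w W ≤ 2 * W.card - 1) (hfree : ∃ f ∈ E, w f = 1) :
    ∃ f ∈ E, w f = 1 ∧ ∀ w' : β → ℤ, w' f = 0 → (∀ e ∈ E, e ≠ f → w' e = w e) →
      ∀ W ⊆ Bx, v ∈ W → SS E ins w' W ≤ 2 * W.card - 2 := by
  classical
  have hw0 : ∀ e ∈ E, 0 ≤ w e := by
    intro e he
    rcases hw e he with h | h | h <;> rw [h] <;> norm_num
  have hle : ∀ f ∈ E, w f = 1 → ∀ w' : β → ℤ, w' f = 0 → (∀ e ∈ E, e ≠ f → w' e = w e) →
      ∀ W, SS E ins w' W = SS E ins w W - (if ins W f then 1 else 0) := by
    intro f hf hf1 w' hf0 hoth W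
    unfold SS
    rw [← Finset.add_sum_erase _ _ hf, ← Finset.add_sum_erase (a := f) _ _ hf, hf0, hf1]
    have : ∑ e ∈ E.erase f, (if ins W e then w' e else 0) =
        ∑ e ∈ E.erase f, (if ins W e then w e else 0) := by
      refine Finset.sum_congr rfl fun e he => ?_
      rw [hoth e (Finset.mem_of_mem_erase he) (Finset.ne_of_mem_erase he)]
    rw [this]
    split_ifs <;> ring
  set Vi : Finset (Finset α) := Bx.powerset.filter fun W => v ∈ W ∧
    2 * (W.card : ℤ) - 1 ≤ SS E ins w W with hVi
  rcases Vi.eq_empty_or_nonempty with hemp | hne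
  · obtain ⟨f, hf, hf1⟩ := hfree
    refine ⟨f, hf, hf1, fun w' h0 hoth W hW hv => ?_⟩
    have h1 : W ∉ Vi := by rw [hemp]; simp
    rw [hVi, Finset.mem_filter, not_and] at h1
    have h2 := h1 (Finset.mem_powerset.2 hW)
    rw [not_and, not_le] at h2
    have h3 := h2 hv
    rw [hle f hf hf1 w' h0 hoth W]
    split_ifs <;> omega
  · obtain ⟨W0, hW0, hmin⟩ := Vi.exists_min_image Finset.card hne
    obtain ⟨hW0B, hv0, hW0s⟩ := by
      rw [hVi, Finset.mem_filter, Finset.mem_powerset] at hW0; exact hW0
    have hW0e : SS E ins w W0 = 2 * W0.card - 1 := le_antisymm (hinv W0 hW0B hv0) hW0s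
    obtain ⟨f, hf, hfi, hf1⟩ : ∃ f ∈ E, ins W0 f ∧ w f = 1 := by
      by_contra hcon
      push Not at hcon
      have heven : Even (SS E ins w W0) := by
        unfold SS
        refine Finset.even_sum _ fun e he => ?_
        split_ifs with hi
        · rcases hw e he with h | h | h
          · rw [h]; exact ⟨0, by ring⟩
          · exact absurd h (hcon e he hi)
          · rw [h]; exact ⟨1, by ring⟩
        · exact ⟨0, by ring⟩
      rw [hW0e] at heven
      obtain ⟨r, hr⟩ := heven
      omega
    refine ⟨f, hf, hf1, fun w' h0 hoth W hW hv => ?_⟩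
    rw [hle f hf hf1 w' h0 hoth W]
    by_cases hvi : 2 * (W.card : ℤ) - 1 ≤ SS E ins w W
    · have hsup := SS_super hcap hmono hw0 W W0
      have hu := hinv (W ∪ W0) (Finset.union_subset hW hW0B) (Finset.mem_union_left _ hv)
      have hcard : (W ∪ W0).card + (W ∩ W0).card = W.card + W0.card :=
        Finset.card_union_add_card_inter W W0
      have hcap' : W ∩ W0 ∈ Vi := by
        rw [hVi, Finset.mem_filter, Finset.mem_powerset]
        refine ⟨Finset.inter_subset_left.trans hW, Finset.mem_inter.2 ⟨hv, hv0⟩, ?_⟩
        zify at hcard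
        linarith
      have h1 := hmin _ hcap'
      have h2 : W ∩ W0 = W0 := Finset.eq_of_subset_of_card_le Finset.inter_subset_right h1
      have h3 : W0 ⊆ W := by
        rw [← h2]; exact Finset.inter_subset_left
      rw [if_pos (hmono _ _ _ h3 hfi)]
      have := hinv W hW hv
      linarith
    · push Not at hvi
      split_ifs <;> omega

end abstract

/-! ### the box -/

/-- `e` is an edge of the box inside `W` together with the outside -/
def ins (Bx W : Finset Vertex) (e : Edge) : Prop :=
  (src e ∈ W ∨ src e ∉ Bx) ∧ (tgt e ∈ W ∨ tgt e ∉ Bx)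

theorem ins_cap (Bx W1 W2 : Finset Vertex) (e : Edge) (h1 : ins Bx W1 e) (h2 : ins Bx W2 e) :
    ins Bx (W1 ∩ W2) e := by
  unfold ins at *
  simp only [Finset.mem_inter]
  tauto

theorem ins_mono (Bx W1 W2 : Finset Vertex) (e : Edge) (h : W1 ⊆ W2) (h1 : ins Bx W1 e) :
    ins Bx W2 e :=
  ⟨h1.1.imp (fun x => h x) id, h1.2.imp (fun x => h x) id⟩

/-- the edges which touch the box -/
def region (Bx : Finset Vertex) : Finset Edge :=
  Bx.image (fun v => (v.1, v.2, false)) ∪ Bx.image (fun v => (v.1, v.2, true)) ∪
    (Bx.image (fun v => (v.1 - 1, v.2, false)) ∪ Bx.image (fun v => (v.1, v.2 - 1, true)))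

theorem mem_region {Bx : Finset Vertex} {e : Edge} (h : src e ∈ Bx ∨ tgt e ∈ Bx) :
    e ∈ region Bx := by
  obtain ⟨x, y, b⟩ := e
  unfold region
  simp only [Finset.mem_union, Finset.mem_image]
  rcases h with h | h
  · left
    cases b
    · exact Or.inl ⟨_, h, rfl⟩
    · exact Or.inr ⟨_, h, rfl⟩
  · right
    cases b
    · exact Or.inl ⟨(x + 1, y), h, by simp⟩
    · exact Or.inr ⟨(x, y + 1), h, by simp⟩

open Classical in
/-- the edges of the board which touch the box -/
noncomputable def GR (G : Set Edge) (Bx : Finset Vertex) : Finset Edge :=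
  (region Bx).filter fun e => e ∈ G ∧ (src e ∈ Bx ∨ tgt e ∈ Bx)

theorem mem_GR {G : Set Edge} {Bx : Finset Vertex} {e : Edge} :
    e ∈ GR G Bx ↔ e ∈ G ∧ (src e ∈ Bx ∨ tgt e ∈ Bx) := by
  classical
  unfold GR
  simp only [Finset.mem_filter]
  exact ⟨fun h => h.2, fun h => ⟨mem_region h.2, h⟩⟩

/-- when nothing is free, the root is confined to the box -/
theorem confined {G : Set Edge} {Bx : Finset Vertex} {v : Vertex} (hv : v ∈ Bx) {B : Set Edge}
    {w : Edge → ℤ} (hw : ∀ e ∈ GR G Bx, (e ∈ B → w e = 0) ∧ (e ∉ B → w e = 2))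
    (hinv : ∀ W ⊆ Bx, v ∈ W → SS (GR G Bx) (ins Bx) w W ≤ 2 * W.card - 2) :
    (comp (G \ B) v).Finite := by
  classical
  have hw0 : ∀ e ∈ GR G Bx, 0 ≤ w e := by
    intro e he
    by_cases h : e ∈ B
    · rw [(hw e he).1 h]
    · rw [(hw e he).2 h]; norm_num
  set T : Finset Vertex → ℤ := fun W => ∑ e ∈ GR G Bx,
    if src e ∈ W ∧ tgt e ∈ W then w e else 0 with hT
  set F : Finset (Finset Vertex) := Bx.powerset.filter fun W => v ∈ W ∧
    2 * (W.card : ℤ) - 2 ≤ T W with hF
  have hne : F.Nonempty := by
    refine ⟨{v}, ?_⟩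
    rw [hF, Finset.mem_filter, Finset.mem_powerset]
    refine ⟨by simpa using hv, by simp, ?_⟩
    rw [Finset.card_singleton]
    have : 0 ≤ T {v} := Finset.sum_nonneg fun e he => by
      split_ifs
      · exact hw0 e he
      · exact le_rfl
    simpa using this
  obtain ⟨W, hWF, hmax⟩ := F.exists_max_image Finset.card hne
  obtain ⟨hWB, hvW, hWT⟩ := by
    rw [hF, Finset.mem_filter, Finset.mem_powerset] at hWF; exact hWF
  -- adding one edge
  have hadd : ∀ (P : Edge → Prop) (e : Edge), e ∈ GR G Bx → e ∉ B → P e →
      (∀ e' : Edge, src e' ∈ W → tgt e' ∈ W → P e') → ¬ (src e ∈ W ∧ tgt e ∈ W) →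
      T W + 2 ≤ ∑ e ∈ GR G Bx, if P e then w e else 0 := by
    intro P e he heB hPe hP hnot
    rw [hT]
    simp only
    rw [← Finset.add_sum_erase _ _ he, ← Finset.add_sum_erase (a := e) _ _ he, if_neg hnot,
      if_pos hPe, (hw e he).2 heB]
    have : ∑ e ∈ (GR G Bx).erase e, (if src e ∈ W ∧ tgt e ∈ W then w e else 0) ≤
        ∑ e ∈ (GR G Bx).erase e, (if P e then w e else 0) := by
      refine Finset.sum_le_sum fun e' he' => ?_
      have h0 := hw0 e' (Finset.mem_of_mem_erase he')
      by_cases h : src e' ∈ W ∧ tgt e' ∈ W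
      · rw [if_pos h, if_pos (hP e' h.1 h.2)]
      · rw [if_neg h]
        split_ifs
        · exact h0
        · exact le_rfl
    linarith
  have hclosed : ∀ u x, u ∈ W → Adj (G \ B) u x → x ∈ W := by
    rintro u x hu ⟨e, ⟨heG, heB⟩, hends⟩
    by_contra hx
    have he : e ∈ GR G Bx := by
      rw [mem_GR]
      refine ⟨heG, ?_⟩
      rcases hends with ⟨h1, -⟩ | ⟨-, h2⟩
      · left; rw [h1]; exact hWB hu
      · right; rw [h2]; exact hWB hu
    have hnot : ¬ (src e ∈ W ∧ tgt e ∈ W) := by
      rintro ⟨h1, h2⟩
      rcases hends with ⟨h3, h4⟩ | ⟨h3, h4⟩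
      · rw [h4] at h2; exact hx h2
      · rw [h3] at h1; exact hx h1
    by_cases hxB : x ∈ Bx
    · -- enlarge
      have h1 : insert x W ∈ F := by
        rw [hF, Finset.mem_filter, Finset.mem_powerset]
        refine ⟨Finset.insert_subset hxB hWB, Finset.mem_insert_of_mem hvW, ?_⟩
        rw [Finset.card_insert_of_notMem hx]
        have h2 := hadd (fun e => src e ∈ insert x W ∧ tgt e ∈ insert x W) e he heB (by
          rcases hends with ⟨h3, h4⟩ | ⟨h3, h4⟩
          · rw [h3, h4]; exact ⟨Finset.mem_insert_of_mem hu, Finset.mem_insert_self _ _⟩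
          · rw [h3, h4]; exact ⟨Finset.mem_insert_self _ _, Finset.mem_insert_of_mem hu⟩)
          (fun e' h3 h4 => ⟨Finset.mem_insert_of_mem h3, Finset.mem_insert_of_mem h4⟩) hnot
        have h3 : T W + 2 ≤ T (insert x W) := by
          refine h2.trans (le_of_eq ?_)
          rw [hT]
          refine Finset.sum_congr rfl fun e _ => ?_
          congr
        push_cast
        linarith
      have h2 := hmax _ h1
      rw [Finset.card_insert_of_notMem hx] at h2
      omega
    · have h2 := hadd (fun e => ins Bx W e) e he heB (by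
        rcases hends with ⟨h3, h4⟩ | ⟨h3, h4⟩
        · exact ⟨Or.inl (by rw [h3]; exact hu), Or.inr (by rw [h4]; exact hxB)⟩
        · exact ⟨Or.inr (by rw [h3]; exact hxB), Or.inl (by rw [h4]; exact hu)⟩)
        (fun e' h3 h4 => ⟨Or.inl h3, Or.inl h4⟩) hnot
      have h3 := hinv W hWB hvW
      have h4 : T W + 2 ≤ SS (GR G Bx) (ins Bx) w W := by
        refine h2.trans (le_of_eq ?_)
        unfold SS
        refine Finset.sum_congr rfl fun e _ => ?_
        congr
      linarith
  refine Set.Finite.subset (Finset.finite_toSet W) ?_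
  intro x hx
  have hx' : Relation.ReflTransGen (Adj (G \ B)) v x := hx
  induction hx' with
  | refl => exact hvW
  | tail hab hbc ih => exact hclosed _ _ (ih hab) hbc

/-- the edges of Maker before her answer to `L` -/
def before (σ : Strategy) (L : List Edge) : Set Edge := {e | ∃ L', L' <+: L ∧ L' ≠ L ∧ e = σ L'}

theorem makerEdges_eq (σ : Strategy) (L : List Edge) :
    makerEdges σ L = before σ L ∪ {σ L} := by
  ext e
  constructor
  · rintro ⟨L', h, rfl⟩
    by_cases h1 : L' = L
    · right; rw [h1]; rfl
    · left; exact ⟨L', h, h1, rfl⟩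
  · rintro (⟨L', h, -, rfl⟩ | h)
    · exact ⟨L', h, rfl⟩
    · exact ⟨L, List.prefix_refl L, h⟩

theorem before_append (σ : Strategy) (L : List Edge) (f : Edge) :
    before σ (L ++ [f]) = makerEdges σ L := by
  ext e
  constructor
  · rintro ⟨L', h, hne, rfl⟩
    rw [List.prefix_concat_iff] at h
    rcases h with h | h
    · exact absurd h hne
    · exact ⟨L', h, rfl⟩
  · rintro ⟨L', h, rfl⟩
    refine ⟨L', h.trans (List.prefix_append _ _), ?_, rfl⟩
    intro h1
    have := h.length_le
    rw [h1, List.length_append] at this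
    simp at this

theorem legal_append {G : Set Edge} {σ : Strategy} {L : List Edge} {f : Edge} (hL : Legal G σ L)
    (h1 : f ∈ G) (h2 : f ∉ L) (h3 : f ∉ makerEdges σ L) : Legal G σ (L ++ [f]) := by
  intro L' g h
  rw [List.prefix_concat_iff] at h
  rcases h with h | h
  · obtain ⟨rfl, h4⟩ := List.append_inj' h rfl
    have h5 : g = f := by simpa using h4
    subst h5
    exact ⟨h1, h2, h3⟩
  · exact hL L' g h

open Classical in
/-- the weights -/
noncomputable def wt (L : List Edge) (M : Set Edge) (e : Edge) : ℤ :=
  if e ∈ L then 0 else if e ∈ M then 2 else 1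

/-- **Breaker wins in a sparse box.** -/
theorem breaker_wins {G : Set Edge} {Bx : Finset Vertex} {v : Vertex} (hv : v ∈ Bx)
    (hsp : ∀ W ⊆ Bx, v ∈ W → SS (GR G Bx) (ins Bx) (fun _ => 1) W ≤ 2 * W.card - 2)
    (σ : Strategy) : ¬ Wins G v σ := by
  classical
  intro hwin
  have key : ∀ (k : ℕ) (L : List Edge), Legal G σ L →
      (∀ W ⊆ Bx, v ∈ W → SS (GR G Bx) (ins Bx) (wt L (before σ L)) W ≤ 2 * W.card - 2) →
      ((GR G Bx).filter fun e => e ∉ L ∧ e ∉ before σ L).card ≤ k → False := by
    intro k
    induction k with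
    | zero =>
      intro L hL hinv hcard
      obtain ⟨-, hinf⟩ := hwin L hL
      apply hinf
      refine confined hv (w := wt L (before σ L)) ?_ hinv
      intro e he
      constructor
      · intro h
        have h' : e ∈ L := h
        unfold wt; rw [if_pos h']
      · intro h
        have h' : e ∉ L := h
        have h1 : e ∈ before σ L := by
          by_contra h2
          have h3 : e ∈ (GR G Bx).filter fun e => e ∉ L ∧ e ∉ before σ L :=
            Finset.mem_filter.2 ⟨he, h', h2⟩
          have := Finset.card_pos.2 ⟨e, h3⟩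
          omega
        unfold wt; rw [if_neg h', if_pos h1]
    | succ k ih =>
      intro L hL hinv hcard
      obtain ⟨⟨hm1, hm2, hm3⟩, hinf⟩ := hwin L hL
      set w : Edge → ℤ := wt L (makerEdges σ L) with hw
      have hval : ∀ e ∈ GR G Bx, w e = 0 ∨ w e = 1 ∨ w e = 2 := by
        intro e _
        rw [hw]; unfold wt
        split_ifs <;> simp
      have hinv' : ∀ W ⊆ Bx, v ∈ W → SS (GR G Bx) (ins Bx) w W ≤ 2 * W.card - 1 := by
        intro W hW hvW
        have h1 := hinv W hW hvW
        have h2 : SS (GR G Bx) (ins Bx) w W ≤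
            SS (GR G Bx) (ins Bx) (wt L (before σ L)) W + 1 := by
          unfold SS
          have h3 : ∀ e, w e ≤ wt L (before σ L) e + (if e = σ L then 1 else 0) := by
            intro e
            rw [hw, makerEdges_eq]
            unfold wt
            by_cases h4 : e ∈ L
            · rw [if_pos h4, if_pos h4]; split_ifs <;> norm_num
            · rw [if_neg h4, if_neg h4]
              by_cases h5 : e ∈ before σ L
              · rw [if_pos (Set.mem_union_left _ h5), if_pos h5]; split_ifs <;> norm_num
              · rw [if_neg h5]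
                by_cases h6 : e = σ L
                · have h8 : e ∈ before σ L ∪ {σ L} := Set.mem_union_right _ h6
                  rw [if_pos h8, if_pos h6]; norm_num
                · have h8 : e ∉ before σ L ∪ {σ L} := by
                    rintro (h7 | h7)
                    · exact h5 h7
                    · exact h6 h7
                  rw [if_neg h6, if_neg h8]
                  norm_num
          calc ∑ e ∈ GR G Bx, (if ins Bx W e then w e else 0)
              ≤ ∑ e ∈ GR G Bx, ((if ins Bx W e then wt L (before σ L) e else 0) +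
                (if e = σ L then 1 else 0)) := by
                refine Finset.sum_le_sum fun e _ => ?_
                have := h3 e
                split_ifs at this ⊢ <;> linarith
            _ ≤ _ := by
                rw [Finset.sum_add_distrib]
                have : ∑ e ∈ GR G Bx, (if e = σ L then (1 : ℤ) else 0) ≤ 1 := by
                  rw [Finset.sum_ite_eq']
                  split_ifs <;> norm_num
                linarith
        linarith
      by_cases hfree : ∃ f ∈ GR G Bx, w f = 1
      · obtain ⟨f, hf, hf1, hnew⟩ := step_lemma (ins_cap Bx) (ins_mono Bx) hval hinv' hfree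
        have hfL : f ∉ L := by
          intro h
          rw [hw] at hf1; unfold wt at hf1
          rw [if_pos h] at hf1
          norm_num at hf1
        have hfM : f ∉ makerEdges σ L := by
          intro h
          rw [hw] at hf1; unfold wt at hf1
          rw [if_neg hfL, if_pos h] at hf1
          norm_num at hf1
        have hfB : f ∉ before σ L := by
          intro h
          apply hfM
          rw [makerEdges_eq]
          exact Or.inl h
        refine ih (L ++ [f]) (legal_append hL (mem_GR.1 hf).1 hfL hfM) ?_ ?_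
        · refine hnew _ ?_ ?_
          · unfold wt
            rw [if_pos (by simp)]
          · intro e _ hne
            rw [before_append, hw]
            unfold wt
            have : e ∈ L ++ [f] ↔ e ∈ L := by simp [hne]
            simp only [this]
        · have hlt : ((GR G Bx).filter fun e => e ∉ L ++ [f] ∧ e ∉ before σ (L ++ [f])).card <
              ((GR G Bx).filter fun e => e ∉ L ∧ e ∉ before σ L).card := by
            refine Finset.card_lt_card ?_
            rw [Finset.ssubset_iff_of_subset]
            · refine ⟨f, Finset.mem_filter.2 ⟨hf, hfL, hfB⟩, ?_⟩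
              rw [Finset.mem_filter]
              rintro ⟨-, h, -⟩
              exact h (by simp)
            · intro e he
              rw [Finset.mem_filter] at he ⊢
              refine ⟨he.1, fun h => he.2.1 (by simp [h]), fun h => he.2.2 ?_⟩
              rw [before_append, makerEdges_eq]
              exact Or.inl h
          omega
      · push Not at hfree
        apply hinf
        have hval2 : ∀ e ∈ GR G Bx, (e ∈ {e | e ∈ L} → w e = 0) ∧ (e ∉ {e | e ∈ L} → w e = 2) := by
          intro e he
          constructor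
          · intro h
            have h' : e ∈ L := h
            rw [hw]; unfold wt; rw [if_pos h']
          · intro h
            have h' : e ∉ L := h
            have h1 := hfree e he
            rw [hw] at h1 ⊢
            unfold wt at h1 ⊢
            rw [if_neg h'] at h1 ⊢
            by_cases h2 : e ∈ makerEdges σ L
            · rw [if_pos h2]
            · rw [if_neg h2] at h1
              exact absurd rfl h1
        refine confined hv hval2 ?_
        intro W hW hvW
        have h1 := hinv' W hW hvW
        have heven : Even (SS (GR G Bx) (ins Bx) w W) := by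
          unfold SS
          refine Finset.even_sum _ fun e he => ?_
          split_ifs with hi
          · by_cases h : e ∈ L
            · rw [(hval2 e he).1 h]; exact ⟨0, by ring⟩
            · rw [(hval2 e he).2 h]; exact ⟨1, by ring⟩
          · exact ⟨0, by ring⟩
        obtain ⟨r, hr⟩ := heven
        omega
  refine key _ [] ?_ ?_ le_rfl
  · intro L' f h
    rw [List.prefix_nil] at h
    simp at h
  · intro W hW hvW
    have h1 := hsp W hW hvW
    refine le_trans (le_of_eq ?_) h1
    unfold SS
    refine Finset.sum_congr rfl fun e _ => ?_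
    have : wt [] (before σ []) e = 1 := by
      unfold wt
      rw [if_neg (by simp), if_neg]
      rintro ⟨L', h, hne, -⟩
      rw [List.prefix_nil] at h
      exact hne h
    rw [this]

end Pool.Agent.X136.MB
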